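import Pool.Agent.Helper27.HZ.Stm

/-!
# H9: the sign of the Gauss-Bonnet sum of an array with a general representation
-/

set_option autoImplicit false

open scoped BigOperators
open MvPolynomial

namespace Pool.Agent.Hx18.HZ

open Pool.Agent.Helper27.HZ
open Pool.Agent.Helper27.HY (Bf gbJ)

/-- the sum over the variables -/
theorem var_sum {J : Type} [Fintype J] [DecidableEq J] {p r q : ℕ} (A0 : Fin p → Matrix J J ℝ)
    (A : Fin p → Fin r → Matrix J J ℝ) (w : Fin q → Matrix J J ℝ) (i k j l : J) :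
    (∑ a, (Sum.elim (fun a => Complex.I • (w a).map ((↑) : ℝ → ℂ))
        (Mk (fun s => (A0 s).map ((↑) : ℝ → ℂ)) fun s k => (A s k).map ((↑) : ℝ → ℂ)) a i j *
      Sum.elim (fun a => Complex.I • (w a).map ((↑) : ℝ → ℂ))
        (Mk (fun s => (A0 s).map ((↑) : ℝ → ℂ)) fun s k => (A s k).map ((↑) : ℝ → ℂ)) a k l -
      Sum.elim (fun a => Complex.I • (w a).map ((↑) : ℝ → ℂ))
        (Mk (fun s => (A0 s).map ((↑) : ℝ → ℂ)) fun s k => (A s k).map ((↑) : ℝ → ℂ)) a k j *
      Sum.elim (fun a => Complex.I • (w a).map ((↑) : ℝ → ℂ))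
        (Mk (fun s => (A0 s).map ((↑) : ℝ → ℂ)) fun s k => (A s k).map ((↑) : ℝ → ℂ)) a i l)) =
    -(((∑ s, (Bf (A0 s) (A s) i j k l - Bf (A0 s) (A s) k j i l) +
      ∑ a, (w a i j * w a k l - w a k j * w a i l) : ℝ)) : ℂ) := by
  have hI : Complex.I * Complex.I = -1 := Complex.I_mul_I
  rw [Fintype.sum_sum_type, Fintype.sum_prod_type]
  simp only [Sum.elim_inl, Sum.elim_inr, Fintype.sum_option, Mk, Matrix.smul_apply,
    Matrix.map_apply, smul_eq_mul, Bf]
  push_cast
  rw [neg_add, ← Finset.sum_neg_distrib, ← Finset.sum_neg_distrib, add_comm]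
  congr 1
  · refine Finset.sum_congr rfl fun s _ => ?_
    rw [Finset.sum_sub_distrib]
    linear_combination ((A0 s i j : ℂ) * A0 s k l - (A0 s k j : ℂ) * A0 s i l) * hI
  · refine Finset.sum_congr rfl fun a _ => ?_
    linear_combination ((w a i j : ℂ) * w a k l - (w a k j : ℂ) * w a i l) * hI

/-- the Gauss-Bonnet sum of minus a real array -/
theorem gbC_neg {m : ℕ} (R : Fin m × Bool → Fin m × Bool → Fin m × Bool → Fin m × Bool → ℝ) :
    gbC (fun i k j l => -((R i k j l : ℝ) : ℂ)) = (((-1) ^ m * gbJ R : ℝ) : ℂ) := by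
  unfold gbC gbJ
  push_cast
  rw [Finset.mul_sum]
  refine Finset.sum_congr rfl fun σ _ => ?_
  rw [Finset.mul_sum]
  refine Finset.sum_congr rfl fun τ _ => ?_
  rw [Finset.prod_neg, Finset.card_univ, Fintype.card_fin]
  ring

theorem sign : SignStm := by
  intro hW hS hA hNV m R hR
  obtain ⟨p, r, q, A0, A, w, hA0s, hAs, hw, hpos, hle, hB⟩ := hR
  have h1 := hA (Fin m × Bool) (Fin p × Option (Fin r)) q
    (Mk (fun s => (A0 s).map ((↑) : ℝ → ℂ)) fun s k => (A s k).map ((↑) : ℝ → ℂ))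
    (fun a => Complex.I • (w a).map ((↑) : ℝ → ℂ)) ((-1) ^ m) (fun t => by
      have h2 := hS hNV m p r A0 A hA0s hAs hpos hle (∑ a, t a • w a) (fun i j => by
        rw [Matrix.sum_apply, Matrix.sum_apply, ← Finset.sum_neg_distrib]
        refine Finset.sum_congr rfl fun a _ => ?_
        rw [Matrix.smul_apply, Matrix.smul_apply, hw]
        simp)
      have h3 : Complex.I • (∑ a, t a • w a).map ((↑) : ℝ → ℂ) =
          ∑ a, (t a : ℂ) • (Complex.I • (w a).map ((↑) : ℝ → ℂ)) := by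
        ext i j
        rw [Matrix.smul_apply, Matrix.map_apply, Matrix.sum_apply, Matrix.sum_apply]
        push_cast
        rw [smul_eq_mul, Finset.mul_sum]
        refine Finset.sum_congr rfl fun a _ => ?_
        simp only [Matrix.smul_apply, Matrix.map_apply, smul_eq_mul]
        push_cast
        ring
      rw [h3] at h2
      exact h2)
  obtain ⟨c, hc, hw2⟩ := hW m
  rw [hw2] at h1
  have h4 : (fun i k j l : Fin m × Bool => ∑ a,
      (Sum.elim (fun a => Complex.I • (w a).map ((↑) : ℝ → ℂ))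
        (Mk (fun s => (A0 s).map ((↑) : ℝ → ℂ)) fun s k => (A s k).map ((↑) : ℝ → ℂ)) a i j *
      Sum.elim (fun a => Complex.I • (w a).map ((↑) : ℝ → ℂ))
        (Mk (fun s => (A0 s).map ((↑) : ℝ → ℂ)) fun s k => (A s k).map ((↑) : ℝ → ℂ)) a k l -
      Sum.elim (fun a => Complex.I • (w a).map ((↑) : ℝ → ℂ))
        (Mk (fun s => (A0 s).map ((↑) : ℝ → ℂ)) fun s k => (A s k).map ((↑) : ℝ → ℂ)) a k j *
      Sum.elim (fun a => Complex.I • (w a).map ((↑) : ℝ → ℂ))
        (Mk (fun s => (A0 s).map ((↑) : ℝ → ℂ)) fun s k => (A s k).map ((↑) : ℝ → ℂ)) a i l)) =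
      fun i k j l => -((R i k j l : ℝ) : ℂ) := by
    funext i k j l
    rw [var_sum, ← hB]
  rw [h4, gbC_neg, ← Complex.ofReal_mul, Complex.ofReal_re] at h1
  have h5 : (-1 : ℝ) ^ m * (c * ((-1) ^ m * gbJ R)) = c * gbJ R := by
    have : (-1 : ℝ) ^ m * (-1) ^ m = 1 := by rw [← mul_pow]; simp
    linear_combination c * gbJ R * this
  rw [h5] at h1
  exact nonneg_of_mul_nonneg_right h1 hc

end Pool.Agent.Hx18.HZ
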